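import Mathlib

set_option autoImplicit false

/-!
# Uniform attachment trees: subtree sizes, expectations, first two moments
-/

open Finset

namespace Q287.UA

/-- `p j` is the parent of the vertex `j + 1`. -/
def Good (p : ℕ → ℕ) : Prop := ∀ j, p j ≤ j

/-- The subtree of the vertex `i` in the tree `T_n`. -/
def sub (p : ℕ → ℕ) (i : ℕ) : ℕ → Finset ℕ
  | 0 => if i = 0 then {0} else ∅
  | n + 1 => if p n ∈ sub p i n ∨ i = n + 1 then insert (n + 1) (sub p i n) else sub p i n

theorem sub_subset (p : ℕ → ℕ) (i n : ℕ) : sub p i n ⊆ range (n + 1) := by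
  induction n with
  | zero => unfold sub; split_ifs <;> simp
  | succ n ih =>
    unfold sub
    split_ifs
    · intro x hx
      rw [mem_insert] at hx
      rcases hx with rfl | hx
      · simp
      · have := ih hx
        simp only [mem_range] at this ⊢; omega
    · intro x hx
      have := ih hx
      simp only [mem_range] at this ⊢; omega

theorem sub_of_lt {p : ℕ → ℕ} {i n : ℕ} (h : n < i) : sub p i n = ∅ := by
  induction n with
  | zero => unfold sub; rw [if_neg (by omega)]
  | succ n ih =>
    unfold sub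
    rw [ih (by omega), if_neg (by simp; omega)]

theorem sub_self (p : ℕ → ℕ) (i : ℕ) : sub p i i = {i} := by
  cases i with
  | zero => simp [sub]
  | succ n =>
    unfold sub
    rw [sub_of_lt (by omega), if_pos (Or.inr rfl)]
    rfl

theorem sub_succ {p : ℕ → ℕ} {i n : ℕ} (h : i ≤ n) :
    sub p i (n + 1) = if p n ∈ sub p i n then insert (n + 1) (sub p i n) else sub p i n := by
  conv_lhs => unfold sub
  have : i ≠ n + 1 := by omega
  simp [this]

theorem mem_sub_succ {p : ℕ → ℕ} {i n v : ℕ} (hv : v ≤ n) :
    v ∈ sub p i (n + 1) ↔ v ∈ sub p i n := by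
  conv_lhs => unfold sub
  split_ifs with h
  · rw [mem_insert]
    constructor
    · rintro (h | h)
      · omega
      · exact h
    · exact Or.inr
  · rfl

theorem mem_sub_iff {p : ℕ → ℕ} {i n m v : ℕ} (hv : v ≤ m) (hm : m ≤ n) :
    v ∈ sub p i n ↔ v ∈ sub p i m := by
  induction n, hm using Nat.le_induction with
  | base => rfl
  | succ n hn ih => rw [mem_sub_succ (by omega), ih]

theorem succ_mem_sub {p : ℕ → ℕ} (hp : Good p) {i n j : ℕ} (hj : j + 1 ≤ n) :
    j + 1 ∈ sub p i n ↔ (p j ∈ sub p i n ∨ i = j + 1) := by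
  rw [mem_sub_iff le_rfl hj, mem_sub_iff (m := j) (hp j) (by omega)]
  conv_lhs => unfold sub
  split_ifs with h
  · simp [h]
  · constructor
    · intro h1
      have := sub_subset p i j h1
      simp at this
    · intro h1; exact absurd h1 h

theorem zero_mem_sub {p : ℕ → ℕ} {i n : ℕ} : 0 ∈ sub p i n ↔ i = 0 := by
  rw [mem_sub_iff (m := 0) le_rfl (by omega)]
  unfold sub
  split_ifs with h <;> simp [h]

theorem self_mem_sub {p : ℕ → ℕ} {i n : ℕ} (h : i ≤ n) : i ∈ sub p i n := by
  rw [mem_sub_iff (m := i) le_rfl h, sub_self]; simp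

theorem sub_congr {p p' : ℕ → ℕ} {i n : ℕ} (h : ∀ j < n, p j = p' j) : sub p i n = sub p' i n := by
  induction n with
  | zero => rfl
  | succ n ih =>
    unfold sub
    rw [ih (fun j hj => h j (by omega)), h n (by omega)]

theorem sub_update {p : ℕ → ℕ} {i n a : ℕ} : sub (Function.update p n a) i n = sub p i n :=
  sub_congr fun j hj => Function.update_of_ne (by omega) _ _

/-- Size of the subtree of `i` in `T_n`. -/
def D (p : ℕ → ℕ) (i n : ℕ) : ℕ := (sub p i n).card

theorem D_le (p : ℕ → ℕ) (i n : ℕ) : D p i n ≤ n + 1 := by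
  have := card_le_card (sub_subset p i n)
  simpa [D] using this

theorem D_update {p : ℕ → ℕ} {i n a : ℕ} (h : i ≤ n) :
    D (Function.update p n a) i (n + 1) = D p i n + if a ∈ sub p i n then 1 else 0 := by
  unfold D
  rw [sub_succ h, sub_update, Function.update_self]
  split_ifs with h1
  · rw [card_insert_of_notMem]
    intro h2
    have := sub_subset p i n h2
    simp at this
  · rfl

theorem D_self (p : ℕ → ℕ) (i : ℕ) : D p i i = 1 := by
  unfold D; rw [sub_self]; rfl

/-- If `j` is not in the subtree of `i < j`, the two subtrees are disjoint. -/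
theorem sub_disjoint {p : ℕ → ℕ} {i j n : ℕ} (hij : i < j) (hj : j ≤ n) (h : j ∉ sub p i n) :
    Disjoint (sub p i n) (sub p j n) := by
  induction n, hj using Nat.le_induction with
  | base =>
    rw [sub_self, disjoint_singleton_right]
    exact h
  | succ n hn ih =>
    have h' : j ∉ sub p i n := by rwa [mem_sub_succ hn] at h
    have hd := ih h'
    rw [sub_succ (by omega), sub_succ hn]
    have h1 : n + 1 ∉ sub p i n := fun h2 => by
      have := sub_subset p i n h2
      simp at this
    have h2 : n + 1 ∉ sub p j n := fun h2 => by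
      have := sub_subset p j n h2
      simp at this
    split_ifs with h3 h4 h4
    · exact absurd h4 (disjoint_left.1 hd h3)
    · rw [disjoint_insert_left]; exact ⟨h2, hd⟩
    · rw [disjoint_insert_right]; exact ⟨h1, hd⟩
    · exact hd

theorem D_add_le {p : ℕ → ℕ} {i j n : ℕ} (hij : i < j) (hj : j ≤ n) (h : j ∉ sub p i n) :
    D p i n + D p j n ≤ n + 1 := by
  unfold D
  rw [← card_union_of_disjoint (sub_disjoint hij hj h)]
  have := card_le_card (union_subset (sub_subset p i n) (sub_subset p j n))
  simpa using this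

/-! ### Expectations -/

/-- Expectation with respect to uniform independent choices `p j ∈ {0, …, j}`, `j < n`. -/
noncomputable def E : ℕ → ((ℕ → ℕ) → ℝ) → ℝ
  | 0, F => F (fun _ => 0)
  | n + 1, F => E n (fun p => (∑ a ∈ range (n + 1), F (Function.update p n a)) / (n + 1))

theorem Good.update {p : ℕ → ℕ} (hp : Good p) {n a : ℕ} (ha : a ∈ range (n + 1)) :
    Good (Function.update p n a) := by
  intro j
  by_cases h : j = n
  · subst h; rw [Function.update_self]; exact Nat.lt_succ_iff.1 (mem_range.1 ha)
  · rw [Function.update_of_ne h]; exact hp j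

theorem E_mono {n : ℕ} {F G : (ℕ → ℕ) → ℝ} (h : ∀ p, Good p → F p ≤ G p) : E n F ≤ E n G := by
  induction n generalizing F G with
  | zero => exact h _ (fun _ => Nat.zero_le _)
  | succ n ih =>
    unfold E
    apply ih
    intro p hp
    gcongr with a ha
    exact h _ (hp.update ha)

theorem E_congr {n : ℕ} {F G : (ℕ → ℕ) → ℝ} (h : ∀ p, Good p → F p = G p) : E n F = E n G :=
  le_antisymm (E_mono fun p hp => (h p hp).le) (E_mono fun p hp => (h p hp).ge)

theorem E_const (n : ℕ) (c : ℝ) : E n (fun _ => c) = c := by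
  induction n with
  | zero => rfl
  | succ n ih =>
    unfold E
    rw [E_congr (G := fun _ => c), ih]
    intro p _
    rw [sum_const, card_range, nsmul_eq_mul]
    push_cast
    field_simp

theorem E_add (n : ℕ) (F G : (ℕ → ℕ) → ℝ) : E n (fun p => F p + G p) = E n F + E n G := by
  induction n generalizing F G with
  | zero => rfl
  | succ n ih =>
    unfold E
    rw [← ih]
    apply E_congr
    intro p _
    rw [sum_add_distrib, add_div]

theorem E_mul (n : ℕ) (c : ℝ) (F : (ℕ → ℕ) → ℝ) : E n (fun p => c * F p) = c * E n F := by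
  induction n generalizing F with
  | zero => rfl
  | succ n ih =>
    unfold E
    rw [← ih]
    apply E_congr
    intro p _
    rw [← mul_sum, mul_div_assoc]

theorem E_sub (n : ℕ) (F G : (ℕ → ℕ) → ℝ) : E n (fun p => F p - G p) = E n F - E n G := by
  have h : (fun p => F p - G p) = fun p => F p + (-1) * G p := by ext p; ring
  rw [h, E_add, E_mul]; ring

theorem E_sum {ι : Type*} (n : ℕ) (s : Finset ι) (F : ι → (ℕ → ℕ) → ℝ) :
    E n (fun p => ∑ i ∈ s, F i p) = ∑ i ∈ s, E n (F i) := by
  classical
  induction s using Finset.induction_on with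
  | empty => simp [E_const]
  | insert a s ha ih =>
    simp only [sum_insert ha]
    rw [E_add, ih]

theorem E_nonneg {n : ℕ} {F : (ℕ → ℕ) → ℝ} (h : ∀ p, Good p → 0 ≤ F p) : 0 ≤ E n F := by
  have := E_mono (n := n) (F := fun _ => 0) (G := F) h
  rwa [E_const] at this

/-- One step of the tree: the average of a function of the size of one subtree. -/
theorem avg_step {p : ℕ → ℕ} {i n : ℕ} (hi : i ≤ n) (h : ℕ → ℝ) :
    (∑ a ∈ range (n + 1), h (D (Function.update p n a) i (n + 1))) / (n + 1) =
      h (D p i n) + (D p i n : ℝ) / (n + 1) * (h (D p i n + 1) - h (D p i n)) := by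
  have h1 : ∀ a ∈ range (n + 1), h (D (Function.update p n a) i (n + 1)) =
      h (D p i n) + (if a ∈ sub p i n then 1 else 0) * (h (D p i n + 1) - h (D p i n)) := by
    intro a _
    rw [D_update hi]
    split_ifs <;> simp
  rw [sum_congr rfl h1, sum_add_distrib, ← sum_mul, sum_const, card_range, nsmul_eq_mul]
  have h2 : ∑ a ∈ range (n + 1), (if a ∈ sub p i n then (1 : ℝ) else 0) = D p i n := by
    rw [← sum_filter, sum_const, nsmul_eq_mul, mul_one]
    unfold D
    congr 2
    ext a
    rw [mem_filter]
    exact ⟨fun h => h.2, fun h => ⟨sub_subset p i n h, h⟩⟩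
  rw [h2]
  push_cast
  field_simp

/-- One step of the tree: the average of a function of the sizes of two disjoint subtrees. -/
theorem avg_step2 {p : ℕ → ℕ} {i j n : ℕ} (hij : i < j) (hj : j ≤ n) (hn : j ∉ sub p i n)
    (h : ℕ → ℕ → ℝ) :
    (∑ a ∈ range (n + 1), h (D (Function.update p n a) i (n + 1))
      (D (Function.update p n a) j (n + 1))) / (n + 1) =
      h (D p i n) (D p j n) +
      (D p i n : ℝ) / (n + 1) * (h (D p i n + 1) (D p j n) - h (D p i n) (D p j n)) +
      (D p j n : ℝ) / (n + 1) * (h (D p i n) (D p j n + 1) - h (D p i n) (D p j n)) := by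
  have hd := sub_disjoint hij hj hn
  have h1 : ∀ a ∈ range (n + 1), h (D (Function.update p n a) i (n + 1))
      (D (Function.update p n a) j (n + 1)) =
      h (D p i n) (D p j n) +
      (if a ∈ sub p i n then 1 else 0) * (h (D p i n + 1) (D p j n) - h (D p i n) (D p j n)) +
      (if a ∈ sub p j n then 1 else 0) * (h (D p i n) (D p j n + 1) - h (D p i n) (D p j n)) := by
    intro a _
    rw [D_update (by omega), D_update hj]
    by_cases h3 : a ∈ sub p i n
    · have h4 := disjoint_left.1 hd h3
      rw [if_pos h3, if_neg h4, if_pos h3, if_neg h4]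
      ring_nf
    · by_cases h4 : a ∈ sub p j n
      · rw [if_neg h3, if_pos h4, if_neg h3, if_pos h4]
        ring_nf
      · rw [if_neg h3, if_neg h4, if_neg h3, if_neg h4]
        ring_nf
  rw [sum_congr rfl h1, sum_add_distrib, sum_add_distrib, ← sum_mul, ← sum_mul, sum_const,
    card_range, nsmul_eq_mul]
  have h2 : ∀ i : ℕ, ∑ a ∈ range (n + 1), (if a ∈ sub p i n then (1 : ℝ) else 0) = D p i n := by
    intro i
    rw [← sum_filter, sum_const, nsmul_eq_mul, mul_one]
    unfold D
    congr 2
    ext a
    rw [mem_filter]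
    exact ⟨fun h => h.2, fun h => ⟨sub_subset p i n h, h⟩⟩
  rw [h2, h2]
  push_cast
  field_simp

/-- Indicator of `κ < x`. -/
noncomputable def ind (κ x : ℕ) : ℝ := if κ < x then 1 else 0

theorem ind_nonneg (κ x : ℕ) : 0 ≤ ind κ x := by unfold ind; split_ifs <;> norm_num
theorem ind_le_one (κ x : ℕ) : ind κ x ≤ 1 := by unfold ind; split_ifs <;> norm_num
theorem ind_mul_self (κ x : ℕ) : ind κ x * ind κ x = ind κ x := by
  unfold ind; split_ifs <;> norm_num
theorem ind_anti (κ x : ℕ) : ind κ x ≤ ind (κ - 1) x := by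
  unfold ind; split_ifs <;> first | (norm_num; done) | (exfalso; omega)

/-- `x (1{κ < x+1} - 1{κ < x}) = κ (1{κ-1 < x} - 1{κ < x})`. -/
theorem ind_step (κ x : ℕ) :
    (x : ℝ) * (ind κ (x + 1) - ind κ x) = κ * (ind (κ - 1) x - ind κ x) := by
  unfold ind
  rcases lt_trichotomy κ x with h | h | h
  · rw [if_pos (by omega), if_pos h, if_pos (by omega)]; ring
  · subst h
    rcases Nat.eq_zero_or_pos κ with rfl | h
    · simp
    · rw [if_pos (by omega), if_neg (by omega), if_pos (by omega)]
  · rw [if_neg (by omega), if_neg (by omega), if_neg (by omega)]; ring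

/-- `P(D_i(n) > κ)`. -/
noncomputable def q (i n κ : ℕ) : ℝ := E n (fun p => ind κ (D p i n))

theorem q_nonneg (i n κ : ℕ) : 0 ≤ q i n κ := E_nonneg fun _ _ => ind_nonneg _ _

theorem q_le_one (i n κ : ℕ) : q i n κ ≤ 1 := by
  have := E_mono (n := n) (F := fun p => ind κ (D p i n)) (G := fun _ => 1)
    (fun _ _ => ind_le_one _ _)
  rwa [E_const] at this

theorem q_anti (i n κ : ℕ) : q i n κ ≤ q i n (κ - 1) := E_mono fun _ _ => ind_anti _ _

theorem q_succ {i n : ℕ} (hi : i ≤ n) (κ : ℕ) :
    q i (n + 1) κ = q i n κ + (κ : ℝ) / (n + 1) * (q i n (κ - 1) - q i n κ) := by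
  unfold q
  conv_lhs => unfold E
  rw [← E_sub, ← E_mul, ← E_add]
  apply E_congr
  intro p _
  rw [avg_step hi (ind κ)]
  have := ind_step κ (D p i n)
  have h2 : (D p i n : ℝ) / (n + 1) * (ind κ (D p i n + 1) - ind κ (D p i n)) =
      (κ : ℝ) / (n + 1) * (ind (κ - 1) (D p i n) - ind κ (D p i n)) := by
    rw [div_mul_eq_mul_div, this, div_mul_eq_mul_div]
  rw [h2]

theorem q_self (i κ : ℕ) : q i i κ = if κ = 0 then 1 else 0 := by
  unfold q
  have : (fun p : ℕ → ℕ => ind κ (D p i i)) = fun _ => if κ = 0 then 1 else 0 := by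
    ext p
    rw [D_self]; unfold ind
    congr 1
    simp
  rw [this, E_const]

/-- The exact law of the size of a subtree. -/
theorem q_eq {i n : ℕ} (hi : i ≤ n) {κ : ℕ} (hκ : κ ≤ n) :
    q i n κ = (n - κ).descFactorial i / n.descFactorial i := by
  induction n, hi using Nat.le_induction generalizing κ with
  | base =>
    rw [q_self]
    split_ifs with h
    · subst h
      rw [Nat.sub_zero, div_self]
      exact_mod_cast (Nat.descFactorial_pos.2 le_rfl).ne'
    · rw [Nat.descFactorial_eq_zero_iff_lt.2 (by omega)]; simp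
  | succ n hn ih =>
    rw [q_succ hn]
    have hpos : (0 : ℝ) < n.descFactorial i := by exact_mod_cast Nat.descFactorial_pos.2 hn
    have hpos' : (0 : ℝ) < (n + 1).descFactorial i := by
      exact_mod_cast Nat.descFactorial_pos.2 (by omega)
    have e1 : ((n : ℝ) + 1 - i) * (n + 1).descFactorial i = (n + 1) * n.descFactorial i := by
      have := Nat.succ_descFactorial n i
      have h2 : ((n + 1 - i : ℕ) : ℝ) = (n : ℝ) + 1 - i := by
        rw [Nat.cast_sub (by omega)]; push_cast; ring
      rw [← h2]
      exact_mod_cast this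
    have hni : (0 : ℝ) < (n : ℝ) + 1 - i := by
      have : (i : ℝ) ≤ n := by exact_mod_cast hn
      linarith
    rcases Nat.eq_zero_or_pos κ with rfl | hκ0
    · rw [ih (Nat.zero_le _), Nat.sub_zero, Nat.sub_zero, div_self hpos.ne', div_self hpos'.ne']
      simp
    · rcases Nat.lt_or_ge κ (n + 1) with h | h
      · rw [ih (by omega), ih (by omega)]
        obtain ⟨N, hN⟩ : ∃ N, N = n - κ := ⟨_, rfl⟩
        have h1 : n - (κ - 1) = N + 1 := by omega
        have h2 : n + 1 - κ = N + 1 := by omega
        rw [h1, h2, ← hN]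
        have hn' : (n : ℝ) = N + κ := by
          have : n = N + κ := by omega
          exact_mod_cast this
        have e2 : ((N : ℝ) + 1 - i) * (N + 1).descFactorial i = (N + 1) * N.descFactorial i := by
          rcases Nat.lt_or_ge (N + 1) i with h3 | h3
          · rw [Nat.descFactorial_eq_zero_iff_lt.2 h3,
              Nat.descFactorial_eq_zero_iff_lt.2 (by omega)]
            simp
          · have := Nat.succ_descFactorial N i
            have h2 : ((N + 1 - i : ℕ) : ℝ) = (N : ℝ) + 1 - i := by
              rw [Nat.cast_sub h3]; push_cast; ring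
            rw [← h2]
            exact_mod_cast this
        have e3 : ((n + 1).descFactorial i : ℝ) = (n + 1) * n.descFactorial i / ((n : ℝ) + 1 - i) := by
          rw [eq_div_iff hni.ne', mul_comm]; exact e1
        have hn1 : (0 : ℝ) < (n : ℝ) + 1 := by positivity
        rw [e3]
        field_simp
        rw [hn']
        linear_combination (-1 : ℝ) * e2
      · have hκ' : κ = n + 1 := by omega
        subst hκ'
        have hn1 : (0 : ℝ) < (n : ℝ) + 1 := by positivity
        have h3 : ((n + 1 : ℕ) : ℝ) / (n + 1) = 1 := by push_cast; field_simp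
        rw [h3, one_mul, add_sub_cancel]
        rw [show n + 1 - 1 = n by omega, ih le_rfl, Nat.sub_self, Nat.sub_self]
        rcases Nat.eq_zero_or_pos i with rfl | hi
        · simp
        · rw [Nat.descFactorial_eq_zero_iff_lt.2 hi]; simp

/-- The expected number of vertices with more than `κ` descendants. -/
theorem sum_q {n κ : ℕ} (hκ : κ ≤ n) : ∑ i ∈ range (n + 1), q i n κ = (n + 1) / (κ + 1) := by
  induction n generalizing κ with
  | zero =>
    have : κ = 0 := by omega
    subst this
    simp [q_self]
  | succ n ih =>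
    rw [sum_range_succ, q_self]
    have h1 : ∑ i ∈ range (n + 1), q i (n + 1) κ = ∑ i ∈ range (n + 1), (q i n κ +
        (κ : ℝ) / (n + 1) * (q i n (κ - 1) - q i n κ)) :=
      sum_congr rfl fun i hi => q_succ (by simpa [Nat.lt_succ_iff] using mem_range.1 hi) κ
    rw [h1, sum_add_distrib, ← mul_sum, sum_sub_distrib]
    rcases Nat.eq_zero_or_pos κ with rfl | hκ0
    · rw [ih (Nat.zero_le _)]; simp
    · rw [if_neg (by omega)]
      obtain ⟨k, rfl⟩ : ∃ k, κ = k + 1 := ⟨κ - 1, by omega⟩
      rw [show k + 1 - 1 = k by omega, ih (by omega : k ≤ n)]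
      rcases Nat.lt_or_ge n (k + 1) with h | h
      · have : k = n := by omega
        subst this
        have hn1 : (0 : ℝ) < (k : ℝ) + 1 := by positivity
        have h3 : ((k + 1 : ℕ) : ℝ) / (k + 1) = 1 := by push_cast; field_simp
        rw [h3]
        push_cast
        field_simp
        ring
      · rw [ih h]
        push_cast
        field_simp
        ring

/-- The expected sum of the (shifted) labels of the vertices with more than `κ` descendants. -/
theorem sum_mul_q {n κ : ℕ} (hκ : κ ≤ n) :
    ∑ i ∈ range (n + 1), ((i : ℝ) + 1) * q i n κ = (n + 1) * (n + 2) / ((κ + 1) * (κ + 2)) := by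
  induction n generalizing κ with
  | zero =>
    have : κ = 0 := by omega
    subst this
    simp [q_self]
  | succ n ih =>
    rw [sum_range_succ, q_self]
    have h1 : ∑ i ∈ range (n + 1), ((i : ℝ) + 1) * q i (n + 1) κ =
        ∑ i ∈ range (n + 1), (((i : ℝ) + 1) * q i n κ +
        (κ : ℝ) / (n + 1) * (((i : ℝ) + 1) * q i n (κ - 1) - ((i : ℝ) + 1) * q i n κ)) := by
      apply sum_congr rfl
      intro i hi
      rw [q_succ (by simpa [Nat.lt_succ_iff] using mem_range.1 hi) κ]
      ring
    rw [h1, sum_add_distrib, ← mul_sum, sum_sub_distrib]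
    rcases Nat.eq_zero_or_pos κ with rfl | hκ0
    · rw [ih (Nat.zero_le _)]
      push_cast
      simp
      ring
    · rw [if_neg (by omega)]
      obtain ⟨k, rfl⟩ : ∃ k, κ = k + 1 := ⟨κ - 1, by omega⟩
      rw [show k + 1 - 1 = k by omega, ih (by omega : k ≤ n)]
      rcases Nat.lt_or_ge n (k + 1) with h | h
      · have : k = n := by omega
        subst this
        have hn1 : (0 : ℝ) < (k : ℝ) + 1 := by positivity
        have h3 : ((k + 1 : ℕ) : ℝ) / (k + 1) = 1 := by push_cast; field_simp
        rw [h3]
        push_cast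
        field_simp
        ring
      · rw [ih h]
        push_cast
        field_simp
        ring

end Q287.UA
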