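import Pool.Agent.Q287.UA.Basic

set_option autoImplicit false

/-!
# Uniform attachment trees: pairs of subtrees, variance bounds
-/

open Finset

namespace Q287.UA

/-- Indicator that `j` is in the subtree of `i` in `T_j`. -/
noncomputable def anc (p : ℕ → ℕ) (i j : ℕ) : ℝ := if j ∈ sub p i j then 1 else 0

theorem anc_nonneg (p : ℕ → ℕ) (i j : ℕ) : 0 ≤ anc p i j := by
  unfold anc; split_ifs <;> norm_num
theorem anc_le_one (p : ℕ → ℕ) (i j : ℕ) : anc p i j ≤ 1 := by
  unfold anc; split_ifs <;> norm_num

theorem anc_update {p : ℕ → ℕ} {i j n a : ℕ} (hj : j ≤ n) :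
    anc (Function.update p n a) i j = anc p i j := by
  unfold anc
  rw [sub_congr (p := Function.update p n a) (p' := p)]
  intro k hk
  exact Function.update_of_ne (by omega) _ _

/-- The expected size of a subtree. -/
theorem E_D {i n : ℕ} (hi : i ≤ n) : E n (fun p => (D p i n : ℝ)) = (n + 1) / (i + 1) := by
  induction n, hi using Nat.le_induction with
  | base =>
    have : (fun p : ℕ → ℕ => (D p i i : ℝ)) = fun _ => 1 := by
      ext p; rw [D_self]; simp
    rw [this, E_const, div_self]
    positivity
  | succ n hn ih =>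
    conv_lhs => unfold E
    rw [E_congr (G := fun p => (1 + 1 / ((n : ℝ) + 1)) * (D p i n : ℝ)), E_mul, ih]
    · push_cast
      field_simp
    · intro p _
      have := avg_step (p := p) hn (fun x => (x : ℝ))
      rw [this]
      push_cast
      ring

/-- The probability that `j` is in the subtree of `i`. -/
theorem E_anc {i j : ℕ} (hij : i < j) : E j (fun p => anc p i j) = 1 / (i + 1) := by
  obtain ⟨n, rfl⟩ : ∃ n, j = n + 1 := ⟨j - 1, by omega⟩
  unfold E
  rw [E_congr (G := fun p => (1 / ((n : ℝ) + 1)) * (D p i n : ℝ)), E_mul, E_D (by omega)]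
  · field_simp
  · intro p _
    have h1 : ∀ a ∈ range (n + 1), anc (Function.update p n a) i (n + 1) =
        if a ∈ sub p i n then 1 else 0 := by
      intro a _
      unfold anc
      rw [sub_succ (by omega), sub_update, Function.update_self]
      split_ifs with h1 h2 h2
      · rfl
      · exact absurd (mem_insert_self _ _) h2
      · have := sub_subset p i n h2
        simp at this
      · rfl
    rw [sum_congr rfl h1]
    have h2 : ∑ a ∈ range (n + 1), (if a ∈ sub p i n then (1 : ℝ) else 0) = D p i n := by
      rw [← sum_filter, sum_const, nsmul_eq_mul, mul_one]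
      unfold D
      congr 2
      ext a
      rw [mem_filter]
      exact ⟨fun h => h.2, fun h => ⟨sub_subset p i n h, h⟩⟩
    rw [h2]
    ring

/-- `P(j ∈ sub i, D_j(n) > κ) = P(D_j(n) > κ) / (i + 1)`. -/
theorem E_anc_ind {i j n : ℕ} (hij : i < j) (hj : j ≤ n) (κ : ℕ) :
    E n (fun p => anc p i j * ind κ (D p j n)) = q j n κ / (i + 1) := by
  induction n, hj using Nat.le_induction generalizing κ with
  | base =>
    rw [q_self]
    have : (fun p : ℕ → ℕ => anc p i j * ind κ (D p j j)) =
        fun p => (if κ = 0 then 1 else 0) * anc p i j := by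
      ext p
      rw [D_self]; unfold ind
      rw [mul_comm]
      congr 1
      simp
    rw [this, E_mul, E_anc hij]
    ring
  | succ n hn ih =>
    rw [q_succ hn]
    have h1 : E (n + 1) (fun p => anc p i j * ind κ (D p j (n + 1))) =
        E n (fun p => anc p i j * ind κ (D p j n)) + (κ : ℝ) / (n + 1) *
        (E n (fun p => anc p i j * ind (κ - 1) (D p j n)) -
          E n (fun p => anc p i j * ind κ (D p j n))) := by
      conv_lhs => unfold E
      rw [← E_sub, ← E_mul, ← E_add]
      apply E_congr
      intro p _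
      have h2 : ∀ a ∈ range (n + 1), anc (Function.update p n a) i j *
          ind κ (D (Function.update p n a) j (n + 1)) =
          anc p i j * ind κ (D (Function.update p n a) j (n + 1)) := by
        intro a _
        rw [anc_update hn]
      rw [sum_congr rfl h2, ← mul_sum, mul_div_assoc, avg_step hn (ind κ)]
      have := ind_step κ (D p j n)
      have h3 : (D p j n : ℝ) / (n + 1) * (ind κ (D p j n + 1) - ind κ (D p j n)) =
          (κ : ℝ) / (n + 1) * (ind (κ - 1) (D p j n) - ind κ (D p j n)) := by
        rw [div_mul_eq_mul_div, this, div_mul_eq_mul_div]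
      rw [h3]
      ring
    rw [h1, ih, ih]
    ring

/-- Probability that the disjoint subtrees of `i` and `j` have more than `κ` and `l` vertices. -/
noncomputable def pr2 (i j n κ l : ℕ) : ℝ :=
  E n (fun p => (1 - anc p i j) * (ind κ (D p i n) * ind l (D p j n)))

theorem pr2_nonneg (i j n κ l : ℕ) : 0 ≤ pr2 i j n κ l := by
  apply E_nonneg
  intro p _
  have := anc_le_one p i j
  have h1 := ind_nonneg κ (D p i n)
  have h2 := ind_nonneg l (D p j n)
  have : 0 ≤ 1 - anc p i j := by linarith
  positivity

theorem pr2_succ {i j n : ℕ} (hij : i < j) (hj : j ≤ n) (κ l : ℕ) :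
    pr2 i j (n + 1) κ l = pr2 i j n κ l + (κ : ℝ) / (n + 1) * (pr2 i j n (κ - 1) l - pr2 i j n κ l)
      + (l : ℝ) / (n + 1) * (pr2 i j n κ (l - 1) - pr2 i j n κ l) := by
  unfold pr2
  conv_lhs => unfold E
  rw [← E_sub, ← E_sub, ← E_mul, ← E_mul, ← E_add, ← E_add]
  apply E_congr
  intro p _
  have h2 : ∀ a ∈ range (n + 1), (1 - anc (Function.update p n a) i j) *
      (ind κ (D (Function.update p n a) i (n + 1)) * ind l (D (Function.update p n a) j (n + 1))) =
      (1 - anc p i j) *
      (ind κ (D (Function.update p n a) i (n + 1)) *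
        ind l (D (Function.update p n a) j (n + 1))) := by
    intro a _
    rw [anc_update hj]
  rw [sum_congr rfl h2, ← mul_sum, mul_div_assoc]
  by_cases h : j ∈ sub p i j
  · have : anc p i j = 1 := if_pos h
    rw [this]; ring
  · have hn : j ∉ sub p i n := by rwa [mem_sub_iff le_rfl hj]
    rw [avg_step2 hij hj hn (fun x y => ind κ x * ind l y)]
    have e1 := ind_step κ (D p i n)
    have e2 := ind_step l (D p j n)
    have h3 : (D p i n : ℝ) / (n + 1) * (ind κ (D p i n + 1) * ind l (D p j n) -
        ind κ (D p i n) * ind l (D p j n)) =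
        (κ : ℝ) / (n + 1) * ((ind (κ - 1) (D p i n) - ind κ (D p i n)) * ind l (D p j n)) := by
      rw [← sub_mul, ← mul_assoc, div_mul_eq_mul_div, e1]
      ring
    have h4 : (D p j n : ℝ) / (n + 1) * (ind κ (D p i n) * ind l (D p j n + 1) -
        ind κ (D p i n) * ind l (D p j n)) =
        (l : ℝ) / (n + 1) * (ind κ (D p i n) * (ind (l - 1) (D p j n) - ind l (D p j n))) := by
      rw [← mul_sub, mul_left_comm, div_mul_eq_mul_div, e2, div_mul_eq_mul_div]
      ring
    rw [h3, h4]
    ring

/-- Negative correlation of the sizes of disjoint subtrees. -/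
theorem pr2_le {i j n : ℕ} (hij : i < j) (hj : j ≤ n) (κ l : ℕ) :
    pr2 i j n κ l ≤ q i n κ * q j n l := by
  induction n, hj using Nat.le_induction generalizing κ l with
  | base =>
    rw [q_self]
    unfold pr2 q
    split_ifs with h
    · rw [mul_one]
      apply E_mono
      intro p _
      have h0 := anc_nonneg p i j
      have h0' := anc_le_one p i j
      have h1 := ind_nonneg κ (D p i j)
      have h2 := ind_nonneg l (D p j j)
      have h3 := ind_le_one l (D p j j)
      calc (1 - anc p i j) * (ind κ (D p i j) * ind l (D p j j))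
          ≤ 1 * (ind κ (D p i j) * 1) := by gcongr; linarith
        _ = ind κ (D p i j) := by ring
    · rw [mul_zero, E_congr (G := fun _ => 0), E_const]
      intro p _
      rw [D_self]
      have : ind l 1 = 0 := by unfold ind; rw [if_neg (by omega)]
      rw [this]; ring
  | succ n hn ih =>
    rcases Nat.lt_or_ge (n + 1) (κ + l) with h | h
    · have : pr2 i j (n + 1) κ l = 0 := by
        unfold pr2
        rw [E_congr (G := fun _ => 0), E_const]
        intro p _
        by_cases hjp : j ∈ sub p i j
        · have : anc p i j = 1 := if_pos hjp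
          rw [this]; ring
        · have hn' : j ∉ sub p i (n + 1) := by rwa [mem_sub_iff le_rfl (by omega)]
          have h1 := D_add_le hij (by omega) hn'
          have : ind κ (D p i (n + 1)) * ind l (D p j (n + 1)) = 0 := by
            unfold ind
            split_ifs
            · exfalso; omega
            all_goals simp
          rw [this]; ring
      rw [this]
      exact mul_nonneg (q_nonneg _ _ _) (q_nonneg _ _ _)
    · rw [pr2_succ hij hn, q_succ (by omega), q_succ hn]
      have hn1 : (0 : ℝ) < (n : ℝ) + 1 := by positivity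
      set α : ℝ := (κ : ℝ) / (n + 1)
      set β : ℝ := (l : ℝ) / (n + 1)
      have hα : 0 ≤ α := by positivity
      have hβ : 0 ≤ β := by positivity
      have hαβ : α + β ≤ 1 := by
        show (κ : ℝ) / (n + 1) + (l : ℝ) / (n + 1) ≤ 1
        rw [← add_div, div_le_one hn1]
        exact_mod_cast h
      have i1 := ih κ l
      have i2 := ih (κ - 1) l
      have i3 := ih κ (l - 1)
      have m1 := q_anti i n κ
      have m2 := q_anti j n l
      have p1 : 0 ≤ (1 - α - β) := by linarith
      calc pr2 i j n κ l + α * (pr2 i j n (κ - 1) l - pr2 i j n κ l)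
            + β * (pr2 i j n κ (l - 1) - pr2 i j n κ l)
          = (1 - α - β) * pr2 i j n κ l + α * pr2 i j n (κ - 1) l + β * pr2 i j n κ (l - 1) := by
            ring
        _ ≤ (1 - α - β) * (q i n κ * q j n l) + α * (q i n (κ - 1) * q j n l)
            + β * (q i n κ * q j n (l - 1)) := by gcongr
        _ ≤ (q i n κ + α * (q i n (κ - 1) - q i n κ)) * (q j n l + β * (q j n (l - 1) - q j n l)) := by
            have : 0 ≤ (α * (q i n (κ - 1) - q i n κ)) * (β * (q j n (l - 1) - q j n l)) := by
              apply mul_nonneg <;> apply mul_nonneg <;> first | assumption | linarith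
            linarith

/-- The pair bound. -/
theorem E_ind_mul_ind {i j n : ℕ} (hij : i < j) (hj : j ≤ n) (κ : ℕ) :
    E n (fun p => ind κ (D p i n) * ind κ (D p j n)) ≤
      q i n κ * q j n κ + q j n κ / (i + 1) := by
  calc E n (fun p => ind κ (D p i n) * ind κ (D p j n))
      ≤ E n (fun p => (1 - anc p i j) * (ind κ (D p i n) * ind κ (D p j n)) +
        anc p i j * ind κ (D p j n)) := by
        apply E_mono
        intro p _
        have h0 := anc_nonneg p i j
        have h1 := ind_le_one κ (D p i n)
        have h2 := ind_nonneg κ (D p j n)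
        have : 0 ≤ anc p i j * (1 - ind κ (D p i n)) * ind κ (D p j n) := by
          apply mul_nonneg (mul_nonneg h0 (by linarith)) h2
        linarith
    _ = pr2 i j n κ κ + q j n κ / (i + 1) := by
        rw [E_add, E_anc_ind hij hj]; rfl
    _ ≤ _ := by gcongr; exact pr2_le hij hj κ κ

/-- Number of vertices `i < m` with more than `κ` descendants. -/
noncomputable def X (m κ n : ℕ) (p : ℕ → ℕ) : ℝ := ∑ i ∈ range m, ind κ (D p i n)

theorem E_X (m κ n : ℕ) : E n (X m κ n) = ∑ i ∈ range m, q i n κ := by
  unfold X
  rw [E_sum]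
  rfl

theorem harm_le (L m : ℕ) : ∑ i ∈ range m, (1 : ℝ) / (i + 1) ≤ L + m / (L + 1) := by
  have h : ∀ i ∈ range m, (1 : ℝ) / (i + 1) ≤ (if i < L then 1 else 0) + 1 / (L + 1) := by
    intro i _
    split_ifs with h
    · have h1 : (1 : ℝ) / (i + 1) ≤ 1 := by
        rw [div_le_one (by positivity)]; linarith [(Nat.cast_nonneg i : (0 : ℝ) ≤ i)]
      have h2 : (0 : ℝ) ≤ 1 / (L + 1) := by positivity
      linarith
    · rw [zero_add]
      apply one_div_le_one_div_of_le (by positivity)
      have : (L : ℝ) ≤ i := by exact_mod_cast not_lt.1 h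
      linarith
  refine (sum_le_sum h).trans ?_
  rw [sum_add_distrib, sum_const, card_range, nsmul_eq_mul, ← sum_filter, sum_const, nsmul_eq_mul,
    mul_one]
  have : ((range m).filter (fun i => i < L)).card ≤ L := by
    calc _ ≤ (range L).card := by
          apply card_le_card
          intro i hi
          simp only [mem_filter, mem_range] at hi ⊢
          exact hi.2
      _ = L := card_range L
  have : (((range m).filter (fun i => i < L)).card : ℝ) ≤ L := by exact_mod_cast this
  rw [mul_one_div]
  linarith

/-- Second moment bound. -/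
theorem E_X_sq {n : ℕ} (κ m : ℕ) (hm : m ≤ n + 1) :
    E n (fun p => X m κ n p ^ 2) ≤ (E n (X m κ n)) ^ 2 + E n (X m κ n) +
      2 * ∑ j ∈ range m, q j n κ * ∑ i ∈ range j, (1 : ℝ) / (i + 1) := by
  induction m with
  | zero =>
    have h0 : X 0 κ n = fun _ => 0 := by ext p; simp [X]
    rw [h0]
    simp [E_const]
  | succ m ih =>
    have ih' := ih (by omega)
    have e1 : ∀ p, X (m + 1) κ n p = X m κ n p + ind κ (D p m n) := by
      intro p; unfold X; rw [sum_range_succ]
    have e2 : E n (X (m + 1) κ n) = E n (X m κ n) + q m n κ := by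
      rw [E_X, E_X, sum_range_succ]
    have e3 : E n (fun p => X (m + 1) κ n p ^ 2) = E n (fun p => X m κ n p ^ 2) +
        (2 * E n (fun p => X m κ n p * ind κ (D p m n)) + q m n κ) := by
      unfold q
      rw [← E_mul, ← E_add, ← E_add]
      apply E_congr
      intro p _
      rw [e1]
      have := ind_mul_self κ (D p m n)
      linear_combination this
    have e4 : E n (fun p => X m κ n p * ind κ (D p m n)) ≤
        E n (X m κ n) * q m n κ + q m n κ * ∑ i ∈ range m, (1 : ℝ) / (i + 1) := by
      have : (fun p => X m κ n p * ind κ (D p m n)) =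
          fun p => ∑ i ∈ range m, ind κ (D p i n) * ind κ (D p m n) := by
        ext p; unfold X; rw [sum_mul]
      rw [this, E_sum, E_X, sum_mul, mul_sum, ← sum_add_distrib]
      apply sum_le_sum
      intro i hi
      have := E_ind_mul_ind (mem_range.1 hi) (by omega : m ≤ n) κ
      rw [mul_one_div]
      exact this
    rw [e3, e2, sum_range_succ]
    have h1 := q_nonneg m n κ
    nlinarith [sq_nonneg (q m n κ)]

/-- Variance bound. -/
theorem var_le {n : ℕ} (κ m L : ℕ) (hm : m ≤ n + 1) :
    E n (fun p => (X m κ n p - E n (X m κ n)) ^ 2) ≤ (2 * L + 1) * E n (X m κ n) +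
      2 / (L + 1) * ∑ j ∈ range m, ((j : ℝ) + 1) * q j n κ := by
  have h1 : E n (fun p => (X m κ n p - E n (X m κ n)) ^ 2) =
      E n (fun p => X m κ n p ^ 2) - (E n (X m κ n)) ^ 2 := by
    have : (fun p => (X m κ n p - E n (X m κ n)) ^ 2) = fun p => X m κ n p ^ 2 -
        ((2 * E n (X m κ n)) * X m κ n p - (E n (X m κ n)) ^ 2) := by
      ext p; ring
    rw [this, E_sub, E_sub, E_mul, E_const]
    ring
  rw [h1]
  have h2 := E_X_sq κ m hm
  have h3 : ∑ j ∈ range m, q j n κ * ∑ i ∈ range j, (1 : ℝ) / (i + 1) ≤
      L * E n (X m κ n) + 1 / (L + 1) * ∑ j ∈ range m, ((j : ℝ) + 1) * q j n κ := by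
    rw [E_X, mul_sum, mul_sum, ← sum_add_distrib]
    apply sum_le_sum
    intro j _
    have h4 := harm_le L j
    have h5 := q_nonneg j n κ
    calc q j n κ * ∑ i ∈ range j, (1 : ℝ) / (i + 1) ≤ q j n κ * (L + j / (L + 1)) := by gcongr
      _ ≤ q j n κ * (L + (j + 1) / (L + 1)) := by gcongr; linarith
      _ = _ := by ring
  have h4 : (2 : ℝ) / (L + 1) = 2 * (1 / (L + 1)) := by ring
  rw [h4]
  nlinarith

end Q287.UA
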