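import Pool.Agent.Q287.UA.Graph
import Pool.Agent.Q287.UA.Pair

set_option autoImplicit false

/-!
# Uniform attachment trees: expectations as averages, the most central vertices
-/

open Finset

namespace Q287.UA

theorem ext_snoc {n : ℕ} (f : Choices n) (a : Fin (n + 1)) :
    ext (Fin.snoc (α := fun i : Fin (n + 1) => Fin (i + 1)) f a) =
      Function.update (ext f) n a := by
  ext j
  by_cases hj : j = n
  · subst hj
    rw [Function.update_self]
    unfold ext
    rw [dif_pos (Nat.lt_succ_self _)]
    have : (⟨j, Nat.lt_succ_self j⟩ : Fin (j + 1)) = Fin.last j := rfl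
    rw [this, Fin.snoc_last]
  · rw [Function.update_of_ne hj]
    unfold ext
    by_cases h : j < n
    · rw [dif_pos (by omega), dif_pos h]
      have : (⟨j, by omega⟩ : Fin (n + 1)) = Fin.castSucc ⟨j, h⟩ := rfl
      rw [this, Fin.snoc_castSucc]
    · rw [dif_neg (by omega), dif_neg h]

theorem E_eq (n : ℕ) (F : (ℕ → ℕ) → ℝ) :
    E n F = (∑ f : Choices n, F (ext f)) / Fintype.card (Choices n) := by
  induction n generalizing F with
  | zero =>
    have h1 : Fintype.card (Choices 0) = 1 := by simp [Choices]
    rw [h1, Fintype.sum_unique]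
    unfold E
    simp only [Nat.cast_one, div_one]
    congr 1
  | succ n ih =>
    have h1 : Fintype.card (Choices (n + 1)) = (n + 1) * Fintype.card (Choices n) := by
      rw [Fintype.card_pi, Fintype.card_pi, Fin.prod_univ_castSucc, mul_comm]
      simp
    unfold E
    rw [ih]
    have h2 : ∑ f : Choices (n + 1), F (ext f) =
        ∑ f : Choices n, ∑ a : Fin (n + 1), F (Function.update (ext f) n a) := by
      rw [← (Fin.snocEquiv (fun i : Fin (n + 1) => Fin (i + 1))).sum_comp,
        Fintype.sum_prod_type_right]
      apply Fintype.sum_congr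
      intro f
      apply Fintype.sum_congr
      intro a
      congr 1
      exact ext_snoc f a
    rw [h2, h1]
    have h3 : ∀ f : Choices n, (∑ a ∈ range (n + 1), F (Function.update (ext f) n a)) / (n + 1) =
        (1 / ((n : ℝ) + 1)) * ∑ a : Fin (n + 1), F (Function.update (ext f) n a) := by
      intro f
      rw [← Fin.sum_univ_eq_sum_range (fun a => F (Function.update (ext f) n a))]
      ring
    rw [Fintype.sum_congr _ _ h3, ← mul_sum]
    have h4 : (0 : ℝ) < Fintype.card (Choices n) := by
      have : 0 < Fintype.card (Choices n) := Fintype.card_pos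
      exact_mod_cast this
    push_cast
    field_simp

/-- `w` comes before `v` in the order by centrality, ties being broken with `π`. -/
def Precedes {n : ℕ} (ψ : Fin (n + 1) → ℕ) (π : Equiv.Perm (Fin (n + 1))) (w v : Fin (n + 1)) :
    Prop := ψ w < ψ v ∨ (ψ w = ψ v ∧ π w < π v)

open Classical in
/-- The first `m` vertices in the order by centrality, ties being broken with `π`. -/
noncomputable def firstOnes {n : ℕ} (ψ : Fin (n + 1) → ℕ) (π : Equiv.Perm (Fin (n + 1))) (m : ℕ) :
    Finset (Fin (n + 1)) :=
  univ.filter fun v => (univ.filter fun w => Precedes ψ π w v).card < m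

section
open Classical

theorem Precedes.trans {n : ℕ} {ψ : Fin (n + 1) → ℕ} {π : Equiv.Perm (Fin (n + 1))}
    {a b c : Fin (n + 1)} (h1 : Precedes ψ π a b) (h2 : Precedes ψ π b c) : Precedes ψ π a c := by
  unfold Precedes at *
  rcases h1 with h1 | ⟨h1, h1'⟩ <;> rcases h2 with h2 | ⟨h2, h2'⟩
  · left; omega
  · left; omega
  · left; omega
  · right; exact ⟨h1.trans h2, h1'.trans h2'⟩

theorem Precedes.irrefl {n : ℕ} {ψ : Fin (n + 1) → ℕ} {π : Equiv.Perm (Fin (n + 1))}
    (a : Fin (n + 1)) : ¬ Precedes ψ π a a := by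
  unfold Precedes
  simp

theorem Precedes.total {n : ℕ} {ψ : Fin (n + 1) → ℕ} {π : Equiv.Perm (Fin (n + 1))}
    {a b : Fin (n + 1)} (h : a ≠ b) : Precedes ψ π a b ∨ Precedes ψ π b a := by
  unfold Precedes
  rcases lt_trichotomy (ψ a) (ψ b) with h1 | h1 | h1
  · exact Or.inl (Or.inl h1)
  · rcases lt_trichotomy (π a) (π b) with h2 | h2 | h2
    · exact Or.inl (Or.inr ⟨h1, h2⟩)
    · exact absurd (π.injective h2) h
    · exact Or.inr (Or.inr ⟨h1.symm, h2⟩)
  · exact Or.inr (Or.inl h1)

theorem rank_lt {n : ℕ} {ψ : Fin (n + 1) → ℕ} {π : Equiv.Perm (Fin (n + 1))}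
    {a b : Fin (n + 1)} (h : Precedes ψ π a b) :
    (univ.filter fun w => Precedes ψ π w a).card < (univ.filter fun w => Precedes ψ π w b).card := by
  apply card_lt_card
  rw [ssubset_iff_of_subset]
  · exact ⟨a, by simp [h], by simp [Precedes.irrefl]⟩
  · intro w hw
    simp only [mem_filter, mem_univ, true_and] at hw ⊢
    exact hw.trans h

theorem card_firstOnes {n : ℕ} (ψ : Fin (n + 1) → ℕ) (π : Equiv.Perm (Fin (n + 1))) {m : ℕ}
    (hm : m ≤ n + 1) : (firstOnes ψ π m).card = m := by
  have hlt : ∀ v : Fin (n + 1), (univ.filter fun w => Precedes ψ π w v).card < n + 1 := by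
    intro v
    calc (univ.filter fun w => Precedes ψ π w v).card < (univ : Finset (Fin (n + 1))).card := by
          apply card_lt_card
          rw [ssubset_iff_of_subset (filter_subset _ _)]
          exact ⟨v, mem_univ _, by simp [Precedes.irrefl]⟩
      _ = n + 1 := by simp
  let r : Fin (n + 1) → Fin (n + 1) := fun v => ⟨_, hlt v⟩
  have hinj : Function.Injective r := by
    intro a b h
    by_contra hne
    have h' : (univ.filter fun w => Precedes ψ π w a).card =
      (univ.filter fun w => Precedes ψ π w b).card := congrArg Fin.val h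
    rcases Precedes.total (ψ := ψ) (π := π) hne with h1 | h1
    · exact absurd h' (rank_lt h1).ne
    · exact absurd h' (rank_lt h1).ne'
  have hbij : Function.Bijective r := Finite.injective_iff_bijective.1 hinj
  have h1 : (firstOnes ψ π m).card = (univ.filter fun k : Fin (n + 1) => (k : ℕ) < m).card := by
    apply card_bij (fun v _ => r v)
    · intro v hv
      unfold firstOnes at hv
      simp only [mem_filter, mem_univ, true_and] at hv ⊢
      exact hv
    · intro a _ b _ h; exact hinj h
    · intro k hk
      obtain ⟨v, hv⟩ := hbij.2 k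
      refine ⟨v, ?_, hv⟩
      unfold firstOnes
      simp only [mem_filter, mem_univ, true_and] at hk ⊢
      rw [← hv] at hk
      exact hk
  rw [h1]
  have h2 : (univ.filter fun k : Fin (n + 1) => (k : ℕ) < m).card = (range m).card := by
    apply card_bij (fun (v : Fin (n + 1)) _ => (v : ℕ))
    · intro v hv
      simp only [mem_filter, mem_univ, true_and] at hv
      exact mem_range.2 hv
    · intro a _ b _ h; exact Fin.ext h
    · intro k hk
      rw [mem_range] at hk
      exact ⟨⟨k, by omega⟩, by simpa using hk, rfl⟩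
  rw [h2, card_range]

theorem firstOnes_le {n : ℕ} (ψ : Fin (n + 1) → ℕ) (π : Equiv.Perm (Fin (n + 1))) {m : ℕ}
    {v w : Fin (n + 1)} (hv : v ∈ firstOnes ψ π m) (hw : w ∉ firstOnes ψ π m) : ψ v ≤ ψ w := by
  by_contra h
  apply hw
  have : Precedes ψ π w v := Or.inl (by omega)
  have := rank_lt this
  unfold firstOnes at hv ⊢
  simp only [mem_filter, mem_univ, true_and] at hv ⊢
  omega

/-- Deterministic comparison. -/
theorem compare {n m κ : ℕ} {Dv ψ : Fin (n + 1) → ℕ}
    (hψ : ∀ v, 2 * Dv v < n + 1 → ψ v = n + 1 - Dv v) {A : Finset (Fin (n + 1))}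
    (hA : A.card = m) (hc : ∀ v ∈ A, ∀ w ∉ A, ψ v ≤ ψ w) (hκ : 2 * κ < n + 1) :
    (m + (univ.filter fun v => n + 1 ≤ 2 * Dv v).card ≤ (univ.filter fun v => κ < Dv v).card →
      ∀ v ∈ A, κ < Dv v) ∧
    ((univ.filter fun v => κ < Dv v).card ≤ m → ∀ v, 2 * Dv v < n + 1 → κ < Dv v → v ∈ A) := by
  constructor
  · intro h v hv
    by_contra hvκ
    have hψv := hψ v (by omega)
    -- all non exceptional vertices with `κ < D` are in `A`
    have h1 : insert v ((univ.filter fun v => κ < Dv v) \ (univ.filter fun v => n + 1 ≤ 2 * Dv v)) ⊆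
        A := by
      intro w hw
      rw [mem_insert] at hw
      rcases hw with rfl | hw
      · exact hv
      · simp only [mem_sdiff, mem_filter, mem_univ, true_and] at hw
        by_contra hwA
        have h2 := hc v hv w hwA
        have h3 := hψ w (by omega)
        omega
    have h2 := card_le_card h1
    rw [card_insert_of_notMem (by simp only [mem_sdiff, mem_filter, mem_univ, true_and]; tauto)] at h2
    have h3 := le_card_sdiff (univ.filter fun v => n + 1 ≤ 2 * Dv v) (univ.filter fun v => κ < Dv v)
    omega
  · intro h w hw1 hw2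
    by_contra hwA
    have h3 := hψ w hw1
    have h1 : insert w A ⊆ univ.filter fun v => κ < Dv v := by
      intro v hv
      rw [mem_insert] at hv
      simp only [mem_filter, mem_univ, true_and]
      rcases hv with rfl | hv
      · exact hw2
      · have h2 := hc v hv w hwA
        by_cases h4 : 2 * Dv v < n + 1
        · have := hψ v h4
          omega
        · omega
    have h2 := card_le_card h1
    rw [card_insert_of_notMem hwA] at h2
    omega

end

theorem X_eq_card {n : ℕ} (κ m : ℕ) (hm : m ≤ n + 1) (p : ℕ → ℕ) :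
    X m κ n p = (univ.filter fun v : Fin (n + 1) => (v : ℕ) < m ∧ κ < D p v n).card := by
  unfold X ind
  rw [← sum_filter, sum_const, nsmul_eq_mul, mul_one]
  congr 1
  symm
  apply card_bij (fun (v : Fin (n + 1)) _ => (v : ℕ))
  · intro v hv
    simp only [mem_filter, mem_univ, true_and, mem_range] at hv ⊢
    exact hv
  · intro a _ b _ h; exact Fin.ext h
  · intro k hk
    simp only [mem_filter, mem_range] at hk
    exact ⟨⟨k, by omega⟩, by simpa using hk, rfl⟩

end Q287.UA
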