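import Pool.Agent.Q287.UA.Limits

set_option autoImplicit false

/-!
# Uniform attachment trees: the main estimate
-/

open Finset Filter Topology

namespace Q287.UA

/-- Deterministic part: bounds on the number of vertices `< K` among the first ones. -/
theorem det {n K m κ₁ κ₂ : ℕ} (f : Choices n) (π : Equiv.Perm (Fin (n + 1))) (hm : m ≤ n + 1)
    (hK : K ≤ n + 1) (h1 : 2 * κ₁ < n + 1) (h2 : 2 * κ₂ < n + 1)
    (hX1 : m + X (n + 1) (n / 2) n (ext f) ≤ X (n + 1) κ₁ n (ext f))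
    (hX2 : X (n + 1) κ₂ n (ext f) ≤ m) :
    ((((firstOnes (centrality (tree f)) π m).filter (fun v : Fin (n + 1) => (v : ℕ) < K)).card : ℝ) ≤
      X K κ₁ n (ext f)) ∧
    (X K κ₂ n (ext f) - X (n + 1) (n / 2) n (ext f) ≤
      (((firstOnes (centrality (tree f)) π m).filter (fun v : Fin (n + 1) => (v : ℕ) < K)).card : ℝ)) := by
  classical
  set A := firstOnes (centrality (tree f)) π m with hA
  have hAc : A.card = m := card_firstOnes _ _ hm
  have hle : ∀ v ∈ A, ∀ w ∉ A, centrality (tree f) v ≤ centrality (tree f) w :=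
    fun v hv w hw => firstOnes_le _ _ hv hw
  have hψ : ∀ v : Fin (n + 1), 2 * D (ext f) v n < n + 1 →
      centrality (tree f) v = n + 1 - D (ext f) v n := fun v hv => centrality_eq f v hv
  have c1 := compare (m := m) (κ := κ₁) (Dv := fun v : Fin (n + 1) => D (ext f) v n) hψ hAc hle h1
  have c2 := compare (m := m) (κ := κ₂) (Dv := fun v : Fin (n + 1) => D (ext f) v n) hψ hAc hle h2
  have hB : X (n + 1) (n / 2) n (ext f) =
      ((univ.filter fun v : Fin (n + 1) => n + 1 ≤ 2 * D (ext f) v n).card : ℝ) := by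
    rw [X_eq_card _ _ le_rfl]
    congr 2
    ext v
    simp only [mem_filter, mem_univ, true_and]
    have := v.2
    omega
  have hN : ∀ κ, X (n + 1) κ n (ext f) =
      ((univ.filter fun v : Fin (n + 1) => κ < D (ext f) v n).card : ℝ) := by
    intro κ
    rw [X_eq_card _ _ le_rfl]
    congr 2
    ext v
    simp only [mem_filter, mem_univ, true_and]
    have := v.2
    omega
  constructor
  · have h3 : ∀ v ∈ A, κ₁ < D (ext f) v n := by
      apply c1.1
      rw [hB, hN] at hX1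
      exact_mod_cast hX1
    rw [X_eq_card _ _ hK]
    have : (A.filter (fun v : Fin (n + 1) => (v : ℕ) < K)).card ≤
        (univ.filter fun v : Fin (n + 1) => (v : ℕ) < K ∧ κ₁ < D (ext f) v n).card := by
      apply card_le_card
      intro v hv
      rw [mem_filter] at hv
      simp only [mem_filter, mem_univ, true_and]
      exact ⟨hv.2, h3 v hv.1⟩
    exact_mod_cast this
  · have h3 : ∀ v : Fin (n + 1), 2 * D (ext f) v n < n + 1 → κ₂ < D (ext f) v n → v ∈ A := by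
      apply c2.2
      rw [hN] at hX2
      exact_mod_cast hX2
    rw [X_eq_card _ _ hK, hB, sub_le_iff_le_add]
    have : (univ.filter fun v : Fin (n + 1) => (v : ℕ) < K ∧ κ₂ < D (ext f) v n).card ≤
        (A.filter (fun v : Fin (n + 1) => (v : ℕ) < K)).card +
        (univ.filter fun v : Fin (n + 1) => n + 1 ≤ 2 * D (ext f) v n).card := by
      refine le_trans (card_le_card ?_) (card_union_le _ _)
      intro v hv
      simp only [mem_union, mem_filter, mem_univ, true_and] at hv ⊢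
      by_cases h4 : 2 * D (ext f) v n < n + 1
      · exact Or.inl ⟨h3 v h4 hv.2, hv.1⟩
      · right; omega
    exact_mod_cast this

theorem X_nonneg (m κ n : ℕ) (p : ℕ → ℕ) : 0 ≤ X m κ n p :=
  sum_nonneg fun _ _ => ind_nonneg _ _

theorem E_B_le (n : ℕ) : E n (X (n + 1) (n / 2) n) ≤ 2 := by
  rw [E_X, sum_q (Nat.div_le_self n 2), div_le_iff₀ (by positivity)]
  have : n + 1 ≤ 2 * (n / 2 + 1) := by omega
  exact_mod_cast this

/-- The ratio. -/
noncomputable def R {n : ℕ} (f : Choices n) (π : Equiv.Perm (Fin (n + 1))) (K : ℕ) (c : ℝ) : ℝ :=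
  (((firstOnes (centrality (tree f)) π ⌈c * K⌉₊).filter (fun v : Fin (n + 1) => (v : ℕ) < K)).card : ℝ) / K

/-- Main estimate. -/
theorem main_bound {c : ℝ} (hc : 1 < c) {δ ε : ℝ} (hδ : 0 < δ) (hε : 0 < ε) :
    ∀ᶠ K : ℕ in atTop, ∀ᶠ n : ℕ in atTop, ∃ G : (ℕ → ℕ) → ℝ, E n G ≤ ε ∧ (∀ p, 0 ≤ G p) ∧
      ∀ (f : Choices n) (π : Equiv.Perm (Fin (n + 1))), G (ext f) < 1 →
        |R f π K c - g c| ≤ δ := by
  -- choice of `η`
  have hc0 : 0 < c := by linarith
  obtain ⟨r, hr, hrg⟩ := Metric.continuousAt_iff.1 (continuousAt_g hc0) (δ / 4) (by positivity)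
  set η : ℝ := min (min (r / 8) (δ / 16)) (1 / 8) with hη
  have hη0 : 0 < η := by positivity
  have hη1 : η ≤ r / 8 := (min_le_left _ _).trans (min_le_left _ _)
  have hη2 : η ≤ δ / 16 := (min_le_left _ _).trans (min_le_right _ _)
  have hη3 : η ≤ 1 / 8 := min_le_right _ _
  set y₁ := c + 4 * η with hy₁
  set y₂ := c - 4 * η with hy₂
  have hy₁0 : 0 < y₁ := by linarith
  have hy₂0 : 0 < y₂ := by linarith
  have hg1 : g y₁ < g c + δ / 4 := by
    have h := hrg (x := y₁) (by rw [Real.dist_eq, hy₁, add_sub_cancel_left, abs_of_pos] <;> linarith)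
    rw [Real.dist_eq, abs_lt] at h
    linarith [h.2]
  have hg2 : g c - δ / 4 < g y₂ := by
    have h := hrg (x := y₂) (by
      rw [Real.dist_eq, hy₂, sub_sub_cancel_left, abs_neg, abs_of_pos] <;> linarith)
    rw [Real.dist_eq, abs_lt] at h
    linarith [h.1]
  -- choice of `L`
  set C : ℝ := (c + 2) ^ 2 with hC
  have hC1 : 1 ≤ C := by rw [hC]; nlinarith
  have hCy : c + 2 ≤ C := by rw [hC]; nlinarith
  obtain ⟨L, hL⟩ : ∃ L : ℕ, 8 * C / (η ^ 2 * (L + 1)) ≤ ε / 2 := by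
    obtain ⟨L, hL⟩ := exists_nat_gt (16 * C / (η ^ 2 * ε))
    refine ⟨L, ?_⟩
    rw [div_le_iff₀ (by positivity)]
    rw [div_lt_iff₀ (by positivity)] at hL
    nlinarith [mul_pos (pow_pos hη0 2) hε]
  -- limits in `K`
  have hK1 := (tendsto_g y₁).eventually_lt_const (u := g y₁ + η) (by linarith)
  have hK2 := (tendsto_g y₂).eventually_const_lt (u := g y₂ - η) (by linarith)
  have hK3 : ∀ᶠ K : ℕ in atTop, 4 * ((2 * L + 1) * C) / η ^ 2 / (K : ℝ) + 2 / η / K < ε / 2 := by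
    have h := (tendsto_const_div (4 * ((2 * L + 1) * C) / η ^ 2)).add (tendsto_const_div (2 / η))
    rw [add_zero] at h
    exact h.eventually_lt_const (by positivity)
  have hK4 : ∀ᶠ K : ℕ in atTop, 1 / η + 2 / y₂ + 1 / y₁ + 2 < (K : ℝ) :=
    tendsto_natCast_atTop_atTop.eventually_gt_atTop _
  filter_upwards [hK1, hK2, hK3, hK4, eventually_ge_atTop 1] with K hK1 hK2 hK3 hK4 hKpos
  have hK0 : (0 : ℝ) < K := by exact_mod_cast hKpos
  have hKη : 1 ≤ η * K := by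
    have : 1 / η < K := by
      have h2 : 0 < 2 / y₂ := by positivity
      have h1 : 0 < 1 / y₁ := by positivity
      linarith
    rw [div_lt_iff₀ hη0] at this
    linarith
  have hy₂K : 2 < y₂ * K := by
    have : 2 / y₂ < K := by
      have h2 : 0 < 1 / η := by positivity
      have h1 : 0 < 1 / y₁ := by positivity
      linarith
    rw [div_lt_iff₀ hy₂0] at this
    linarith
  have hy₁K : 2 < y₁ * K := by
    have : y₂ ≤ y₁ := by rw [hy₁, hy₂]; linarith
    nlinarith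
  set ρ₁ : ℝ := 1 / (y₁ * K) with hρ₁
  set ρ₂ : ℝ := 1 / (y₂ * K) with hρ₂
  have hρ₁0 : 0 < ρ₁ := by positivity
  have hρ₂0 : 0 < ρ₂ := by positivity
  have hρ₁2 : ρ₁ < 1 / 2 := one_div_lt_one_div_of_lt (by norm_num) hy₁K
  have hρ₂2 : ρ₂ < 1 / 2 := one_div_lt_one_div_of_lt (by norm_num) hy₂K
  have e1 : 1 / ρ₁ = y₁ * K := by rw [hρ₁, one_div_one_div]
  have e2 : 1 / ρ₂ = y₂ * K := by rw [hρ₂, one_div_one_div]
  have e1' : 1 / ρ₁ ^ 2 = (y₁ * K) ^ 2 := by rw [← one_div_pow, e1]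
  have e2' : 1 / ρ₂ ^ 2 = (y₂ * K) ^ 2 := by rw [← one_div_pow, e2]
  have a1 := tendsto_sum_q hρ₁0 hρ₁2
  have a2 := tendsto_sum_q hρ₂0 hρ₂2
  have b1 := tendsto_sum_mul_q hρ₁0 hρ₁2
  have b2 := tendsto_sum_mul_q hρ₂0 hρ₂2
  have d1 := tendsto_sum_q_range hρ₁0 hρ₁2 K
  have d2 := tendsto_sum_q_range hρ₂0 hρ₂2 K
  rw [e1] at a1
  rw [e2] at a2
  rw [e1'] at b1
  rw [e2'] at b2
  have d1' : (1 - (1 - ρ₁) ^ K) / ρ₁ < K * (g y₁ + η) := by
    calc (1 - (1 - ρ₁) ^ K) / ρ₁ = K * ((1 - (1 - ρ₁) ^ K) * y₁) := by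
          rw [div_eq_mul_one_div, e1]; ring
      _ < K * (g y₁ + η) := by gcongr
  have d2' : K * (g y₂ - η) < (1 - (1 - ρ₂) ^ K) / ρ₂ := by
    calc K * (g y₂ - η) < K * ((1 - (1 - ρ₂) ^ K) * y₂) := by gcongr
      _ = (1 - (1 - ρ₂) ^ K) / ρ₂ := by rw [div_eq_mul_one_div (_ : ℝ) ρ₂, e2]; ring
  have hηK : 0 < η * K := by positivity
  filter_upwards [a1.eventually_const_lt (u := (c + 3 * η) * K) (by rw [hy₁]; nlinarith),
    a1.eventually_lt_const (u := (c + 1) * K) (by rw [hy₁]; nlinarith),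
    a2.eventually_lt_const (u := (c - 3 * η) * K) (by rw [hy₂]; nlinarith),
    b1.eventually_lt_const (u := C * (K : ℝ) ^ 2) (by
      rw [mul_pow]
      have : y₁ ^ 2 < C := by rw [hC]; apply pow_lt_pow_left₀ _ hy₁0.le (by norm_num); linarith
      gcongr),
    b2.eventually_lt_const (u := C * (K : ℝ) ^ 2) (by
      rw [mul_pow]
      have : y₂ ^ 2 < C := by rw [hC]; apply pow_lt_pow_left₀ _ hy₂0.le (by norm_num); linarith
      gcongr),
    d1.eventually_lt_const d1', d2.eventually_const_lt d2',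
    eventually_ge_atTop (K + ⌈c * K⌉₊)] with n m1 m1' m2 v1 v2 s1 s2 hn
  set κ₁ := kap ρ₁ n with hκ₁
  set κ₂ := kap ρ₂ n with hκ₂
  have hk1 : 2 * κ₁ < n + 1 := kap_le hρ₁0 hρ₁2 n
  have hk2 : 2 * κ₂ < n + 1 := kap_le hρ₂0 hρ₂2 n
  rw [← E_X] at m1 m1' m2 s1 s2
  -- variances
  have hm0 : ∀ m κ, 0 ≤ E n (X m κ n) := fun m κ => E_nonneg fun p _ => X_nonneg _ _ _ _
  have w1 := var_le κ₁ (n + 1) L le_rfl
  have w2 := var_le κ₂ (n + 1) L le_rfl
  have w3 := var_le κ₁ K L (by omega : K ≤ n + 1)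
  have w4 := var_le κ₂ K L (by omega : K ≤ n + 1)
  have hL0 : (0 : ℝ) < 2 / (L + 1) := by positivity
  have hsmall : ∀ κ, ∑ j ∈ range K, ((j : ℝ) + 1) * q j n κ ≤ C * (K : ℝ) ^ 2 := by
    intro κ
    calc ∑ j ∈ range K, ((j : ℝ) + 1) * q j n κ ≤ ∑ j ∈ range K, (K : ℝ) * 1 := by
          apply sum_le_sum
          intro j hj
          have h1 : (j : ℝ) + 1 ≤ K := by exact_mod_cast mem_range.1 hj
          have h2 := q_nonneg j n κ
          have h3 := q_le_one j n κ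
          gcongr
      _ = 1 * (K : ℝ) ^ 2 := by rw [sum_const, card_range, nsmul_eq_mul]; ring
      _ ≤ C * (K : ℝ) ^ 2 := by gcongr
  have hEK : ∀ κ, E n (X K κ n) ≤ C * K := by
    intro κ
    rw [E_X]
    calc ∑ i ∈ range K, q i n κ ≤ ∑ i ∈ range K, (1 : ℝ) := sum_le_sum fun i _ => q_le_one _ _ _
      _ = 1 * K := by rw [sum_const, card_range, nsmul_eq_mul]; ring
      _ ≤ C * K := by gcongr
  have hm1 : E n (X (n + 1) κ₁ n) ≤ C * K := by
    refine m1'.le.trans ?_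
    gcongr; linarith
  have hm2 : E n (X (n + 1) κ₂ n) ≤ C * K := by
    refine m2.le.trans ?_
    gcongr; linarith
  set V : ℝ := (2 * L + 1) * (C * K) + 2 / (L + 1) * (C * (K : ℝ) ^ 2) with hV
  have w1' : E n (fun p => (X (n + 1) κ₁ n p - E n (X (n + 1) κ₁ n)) ^ 2) ≤ V := by
    refine w1.trans ?_; rw [hV]; gcongr
  have w2' : E n (fun p => (X (n + 1) κ₂ n p - E n (X (n + 1) κ₂ n)) ^ 2) ≤ V := by
    refine w2.trans ?_; rw [hV]; gcongr
  have w3' : E n (fun p => (X K κ₁ n p - E n (X K κ₁ n)) ^ 2) ≤ V := by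
    refine w3.trans ?_; rw [hV]; gcongr
    · exact hEK _
    · exact hsmall _
  have w4' : E n (fun p => (X K κ₂ n p - E n (X K κ₂ n)) ^ 2) ≤ V := by
    refine w4.trans ?_; rw [hV]; gcongr
    · exact hEK _
    · exact hsmall _
  refine ⟨fun p => 1 / (η * K) ^ 2 * ((X (n + 1) κ₁ n p - E n (X (n + 1) κ₁ n)) ^ 2 +
      (X (n + 1) κ₂ n p - E n (X (n + 1) κ₂ n)) ^ 2 + (X K κ₁ n p - E n (X K κ₁ n)) ^ 2 +
      (X K κ₂ n p - E n (X K κ₂ n)) ^ 2) + 1 / (η * K) * X (n + 1) (n / 2) n p, ?_, ?_, ?_⟩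
  · rw [E_add, E_mul, E_mul, E_add, E_add, E_add]
    have hB := E_B_le n
    calc _ ≤ 1 / (η * K) ^ 2 * (V + V + V + V) + 1 / (η * K) * 2 := by gcongr
      _ = 8 * C / (η ^ 2 * (L + 1)) + (4 * ((2 * L + 1) * C) / η ^ 2 / (K : ℝ) + 2 / η / K) := by
          rw [hV]; field_simp; ring
      _ ≤ ε / 2 + ε / 2 := by linarith
      _ = ε := by ring
  · intro p
    have := X_nonneg (n + 1) (n / 2) n p
    positivity
  · intro f π hG
    have hB0 := X_nonneg (n + 1) (n / 2) n (ext f)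
    have hpos : 0 < (η * K) ^ 2 := by positivity
    set x1 := X (n + 1) κ₁ n (ext f) - E n (X (n + 1) κ₁ n) with hx1
    set x2 := X (n + 1) κ₂ n (ext f) - E n (X (n + 1) κ₂ n) with hx2
    set x3 := X K κ₁ n (ext f) - E n (X K κ₁ n) with hx3
    set x4 := X K κ₂ n (ext f) - E n (X K κ₂ n) with hx4
    have hterm : 0 ≤ 1 / (η * K) * X (n + 1) (n / 2) n (ext f) := by positivity
    have hsq : x1 ^ 2 + x2 ^ 2 + x3 ^ 2 + x4 ^ 2 < (η * K) ^ 2 := by
      have h5 : 1 / (η * K) ^ 2 * (x1 ^ 2 + x2 ^ 2 + x3 ^ 2 + x4 ^ 2) < 1 := by linarith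
      rw [one_div, inv_mul_lt_iff₀ hpos, mul_one] at h5
      exact h5
    have hBs : X (n + 1) (n / 2) n (ext f) < η * K := by
      have h6 : 0 ≤ 1 / (η * K) ^ 2 * (x1 ^ 2 + x2 ^ 2 + x3 ^ 2 + x4 ^ 2) := by positivity
      have h5 : 1 / (η * K) * X (n + 1) (n / 2) n (ext f) < 1 := by linarith
      rw [one_div, inv_mul_lt_iff₀ hηK, mul_one] at h5
      exact h5
    have t1 : |x1| < η * K := abs_lt_of_sq_lt_sq (by linarith [sq_nonneg x2, sq_nonneg x3, sq_nonneg x4]) hηK.le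
    have t2 : |x2| < η * K := abs_lt_of_sq_lt_sq (by linarith [sq_nonneg x1, sq_nonneg x3, sq_nonneg x4]) hηK.le
    have t3 : |x3| < η * K := abs_lt_of_sq_lt_sq (by linarith [sq_nonneg x1, sq_nonneg x2, sq_nonneg x4]) hηK.le
    have t4 : |x4| < η * K := abs_lt_of_sq_lt_sq (by linarith [sq_nonneg x1, sq_nonneg x2, sq_nonneg x3]) hηK.le
    rw [abs_lt] at t1 t2 t3 t4
    have hceil : (⌈c * K⌉₊ : ℝ) < c * K + 1 := Nat.ceil_lt_add_one (by positivity)
    have hceil' : c * K ≤ (⌈c * K⌉₊ : ℝ) := Nat.le_ceil _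
    obtain ⟨r1, r2⟩ := det (m := ⌈c * K⌉₊) (K := K) f π (by omega) (by omega) hk1 hk2
      (by linarith [t1.1]) (by linarith [t2.2])
    unfold R
    rw [abs_le]
    constructor
    · rw [le_sub_iff_add_le, le_div_iff₀ hK0]
      have h7 : K * (g y₂ - η) - η * K - η * K ≤
        (((firstOnes (centrality (tree f)) π ⌈c * K⌉₊).filter (fun v : Fin (n + 1) => (v : ℕ) < K)).card : ℝ) := by
        linarith [t4.1]
      refine le_trans ?_ h7
      have : (K : ℝ) * (g y₂ - η) - η * K - η * K = (g y₂ - 3 * η) * K := by ring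
      rw [this]
      exact mul_le_mul_of_nonneg_right (by linarith) hK0.le
    · rw [sub_le_iff_le_add, div_le_iff₀ hK0]
      have h7 : (((firstOnes (centrality (tree f)) π ⌈c * K⌉₊).filter
          (fun v : Fin (n + 1) => (v : ℕ) < K)).card : ℝ) ≤ K * (g y₁ + η) + η * K := by
        linarith [t3.2]
      refine le_trans h7 ?_
      have : (K : ℝ) * (g y₁ + η) + η * K = (g y₁ + 2 * η) * K := by ring
      rw [this]
      exact mul_le_mul_of_nonneg_right (by linarith) hK0.le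

end Q287.UA
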