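import Pool.Agent.Q287.UA.Basic

set_option autoImplicit false

/-!
# Uniform attachment trees: the graph and the centrality
-/

open Finset

namespace Q287.UA

/-- The choices made in the construction of `T_n`: `f i` is the neighbour chosen by the vertex
`i + 1` among `0, …, i`. -/
abbrev Choices (n : ℕ) : Type := (i : Fin n) → Fin (i + 1)

/-- The tree `T_n` on the vertex set `{0, …, n}`. -/
def tree {n : ℕ} (f : Choices n) : SimpleGraph (Fin (n + 1)) :=
  SimpleGraph.fromRel fun a b => ∃ i : Fin n, (a : ℕ) = i + 1 ∧ (b : ℕ) = f i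

/-- Centrality of the vertex `v` in the graph `G`: the number of vertices of the largest connected
component left after deleting `v`. -/
noncomputable def centrality {V : Type} (G : SimpleGraph V) (v : V) : ℕ :=
  ⨆ C : (G.induce {v}ᶜ).ConnectedComponent, Nat.card C.supp

/-- The parent function `ℕ → ℕ` given by the choices. -/
def ext {n : ℕ} (f : Choices n) : ℕ → ℕ := fun j => if h : j < n then f ⟨j, h⟩ else 0

theorem ext_good {n : ℕ} (f : Choices n) : Good (ext f) := by
  intro j
  unfold ext
  split_ifs with h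
  · exact Nat.lt_succ_iff.1 (f ⟨j, h⟩).2
  · exact Nat.zero_le _

theorem tree_adj {n : ℕ} (f : Choices n) (a b : Fin (n + 1)) :
    (tree f).Adj a b ↔ (∃ j, (a : ℕ) = j + 1 ∧ (b : ℕ) = ext f j) ∨
      (∃ j, (b : ℕ) = j + 1 ∧ (a : ℕ) = ext f j) := by
  unfold tree
  rw [SimpleGraph.fromRel_adj]
  have key : ∀ a b : Fin (n + 1), (∃ i : Fin n, (a : ℕ) = i + 1 ∧ (b : ℕ) = f i) ↔
      (∃ j, (a : ℕ) = j + 1 ∧ (b : ℕ) = ext f j) := by
    intro a b
    constructor
    · rintro ⟨i, h1, h2⟩
      exact ⟨i, h1, by unfold ext; rw [dif_pos i.2]; exact h2⟩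
    · rintro ⟨j, h1, h2⟩
      have hj : j < n := by have := a.2; omega
      refine ⟨⟨j, hj⟩, h1, ?_⟩
      unfold ext at h2; rwa [dif_pos hj] at h2
  rw [key, key]
  constructor
  · exact fun h => h.2
  · intro h
    refine ⟨?_, h⟩
    rintro rfl
    have hg := ext_good f
    rcases h with ⟨j, h1, h2⟩ | ⟨j, h1, h2⟩ <;> (have := hg j; omega)

/-- Edges do not leave the complement of a subtree except through its top. -/
theorem not_mem_of_adj {n : ℕ} {f : Choices n} {v a b : Fin (n + 1)} (h : (tree f).Adj a b)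
    (hb : b ≠ v) (ha : (a : ℕ) ∉ sub (ext f) v n) : (b : ℕ) ∉ sub (ext f) v n := by
  have hg := ext_good f
  rw [tree_adj] at h
  intro hb'
  rcases h with ⟨j, h1, h2⟩ | ⟨j, h1, h2⟩
  · apply ha
    rw [h1, succ_mem_sub hg (by have := a.2; omega), ← h2]
    exact Or.inl hb'
  · rw [h1, succ_mem_sub hg (by have := b.2; omega), ← h2] at hb'
    rcases hb' with h | h
    · exact ha h
    · apply hb
      ext
      omega

theorem not_mem_iff_of_adj {n : ℕ} {f : Choices n} {v a b : Fin (n + 1)} (h : (tree f).Adj a b)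
    (ha : a ≠ v) (hb : b ≠ v) : (a : ℕ) ∉ sub (ext f) v n ↔ (b : ℕ) ∉ sub (ext f) v n :=
  ⟨not_mem_of_adj h hb, not_mem_of_adj h.symm ha⟩

theorem not_mem_iff_of_reachable {n : ℕ} {f : Choices n} {v : Fin (n + 1)}
    {a b : ({v}ᶜ : Set (Fin (n + 1)))} (h : ((tree f).induce {v}ᶜ).Reachable a b) :
    ((a : Fin (n + 1)) : ℕ) ∉ sub (ext f) v n ↔ ((b : Fin (n + 1)) : ℕ) ∉ sub (ext f) v n := by
  obtain ⟨w⟩ := h
  induction w with
  | nil => rfl
  | @cons a c b hac w ih =>
    rw [← ih]
    exact not_mem_iff_of_adj hac a.2 c.2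

/-- All vertices outside of the subtree of `v` are connected to the root. -/
theorem reachable_root {n : ℕ} {f : Choices n} {v : Fin (n + 1)} (hv : (v : ℕ) ≠ 0)
    (w : ℕ) (hw : w < n + 1) (hwv : w ∉ sub (ext f) v n) :
    ∃ (h1 : (⟨w, hw⟩ : Fin (n + 1)) ∈ ({v}ᶜ : Set (Fin (n + 1))))
      (h0 : (⟨0, Nat.succ_pos n⟩ : Fin (n + 1)) ∈ ({v}ᶜ : Set (Fin (n + 1)))),
      ((tree f).induce {v}ᶜ).Reachable ⟨⟨w, hw⟩, h1⟩ ⟨⟨0, Nat.succ_pos n⟩, h0⟩ := by
  have hg := ext_good f
  have h0 : (⟨0, Nat.succ_pos n⟩ : Fin (n + 1)) ∈ ({v}ᶜ : Set (Fin (n + 1))) := by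
    intro h
    apply hv
    rw [Set.mem_singleton_iff] at h
    rw [← h]
  have hne : ∀ (w : ℕ) (hw : w < n + 1), w ∉ sub (ext f) v n →
      (⟨w, hw⟩ : Fin (n + 1)) ∈ ({v}ᶜ : Set (Fin (n + 1))) := by
    intro w hw hwv h
    rw [Set.mem_singleton_iff] at h
    apply hwv
    have : (v : ℕ) = w := by rw [← h]
    rw [this]
    exact self_mem_sub (by omega)
  induction w using Nat.strong_induction_on with
  | _ w ih =>
    refine ⟨hne w hw hwv, h0, ?_⟩
    rcases Nat.eq_zero_or_pos w with rfl | hpos
    · exact SimpleGraph.Reachable.refl _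
    · obtain ⟨j, rfl⟩ : ∃ j, w = j + 1 := ⟨w - 1, by omega⟩
      rw [succ_mem_sub hg (by omega)] at hwv
      push Not at hwv
      have hj := hg j
      obtain ⟨h1, _, h2⟩ := ih (ext f j) (by omega) (by omega) hwv.1
      refine SimpleGraph.Reachable.trans (SimpleGraph.Adj.reachable ?_) h2
      show (tree f).Adj _ _
      rw [tree_adj]
      exact Or.inl ⟨j, rfl, rfl⟩

theorem centrality_eq {n : ℕ} (f : Choices n) (v : Fin (n + 1))
    (hv : 2 * D (ext f) v n < n + 1) :
    centrality (tree f) v = n + 1 - D (ext f) v n := by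
  classical
  have hg := ext_good f
  have hv0 : (v : ℕ) ≠ 0 := by
    intro h
    rw [h] at hv
    have : sub (ext f) 0 n = range (n + 1) := by
      apply le_antisymm (sub_subset _ _ _)
      intro w
      induction w using Nat.strong_induction_on with
      | _ w ih =>
        intro hw
        rcases Nat.eq_zero_or_pos w with rfl | hpos
        · exact self_mem_sub (Nat.zero_le _)
        · obtain ⟨j, rfl⟩ : ∃ j, w = j + 1 := ⟨w - 1, by omega⟩
          rw [mem_range] at hw
          rw [succ_mem_sub hg (by omega)]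
          left
          have hj := hg j
          exact ih _ (by omega) (by rw [mem_range]; omega)
    unfold D at hv
    rw [this, card_range] at hv
    omega
  -- the set of vertices outside of the subtree
  set S : Finset (Fin (n + 1)) := univ.filter fun w => (w : ℕ) ∉ sub (ext f) v n with hS
  have hScard : S.card = n + 1 - D (ext f) v n := by
    have h1 : (univ.filter fun w : Fin (n + 1) => (w : ℕ) ∈ sub (ext f) v n).card =
        D (ext f) v n := by
      unfold D
      apply card_bij (fun (w : Fin (n + 1)) _ => (w : ℕ))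
      · intro a ha; exact (mem_filter.1 ha).2
      · intro a _ b _ h; exact Fin.ext h
      · intro b hb
        have := sub_subset _ _ _ hb
        exact ⟨⟨b, mem_range.1 this⟩, by simp [hb], rfl⟩
    have h2 := card_filter_add_card_filter_not (s := (univ : Finset (Fin (n + 1))))
      (fun w => (w : ℕ) ∈ sub (ext f) v n)
    rw [h1, card_univ, Fintype.card_fin] at h2
    rw [hS]
    omega
  have hupper : ∀ C : ((tree f).induce {v}ᶜ).ConnectedComponent,
      Nat.card C.supp ≤ n + 1 - D (ext f) v n := by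
    intro C
    obtain ⟨a, rfl⟩ := C.exists_rep
    by_cases ha : ((a : Fin (n + 1)) : ℕ) ∈ sub (ext f) v n
    · -- inside the subtree
      have h1 : Nat.card (((tree f).induce {v}ᶜ).connectedComponentMk a).supp ≤ D (ext f) v n := by
        have : Set.InjOn (fun x : ({v}ᶜ : Set (Fin (n + 1))) => ((x : Fin (n + 1)) : ℕ))
            (((tree f).induce {v}ᶜ).connectedComponentMk a).supp := by
          intro x _ y _ h
          exact Subtype.ext (Fin.ext h)
        rw [Nat.card_coe_set_eq, ← Set.InjOn.ncard_image this]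
        unfold D
        rw [← Set.ncard_coe_finset]
        apply Set.ncard_le_ncard _ (Finset.finite_toSet _)
        rintro _ ⟨x, hx, rfl⟩
        have hx' : ((tree f).induce {v}ᶜ).Reachable x a := by
          rwa [SimpleGraph.ConnectedComponent.mem_supp_iff, SimpleGraph.ConnectedComponent.eq] at hx
        have := not_mem_iff_of_reachable hx'
        by_contra hc
        exact (this.1 hc) ha
      refine h1.trans ?_
      omega
    · have h1 : Nat.card (((tree f).induce {v}ᶜ).connectedComponentMk a).supp ≤ S.card := by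
        have : Set.InjOn (fun x : ({v}ᶜ : Set (Fin (n + 1))) => (x : Fin (n + 1)))
            (((tree f).induce {v}ᶜ).connectedComponentMk a).supp := by
          intro x _ y _ h
          exact Subtype.ext h
        rw [Nat.card_coe_set_eq, ← Set.InjOn.ncard_image this, ← Set.ncard_coe_finset]
        apply Set.ncard_le_ncard _ (Finset.finite_toSet _)
        rintro _ ⟨x, hx, rfl⟩
        have hx' : ((tree f).induce {v}ᶜ).Reachable x a := by
          rwa [SimpleGraph.ConnectedComponent.mem_supp_iff, SimpleGraph.ConnectedComponent.eq] at hx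
        have := not_mem_iff_of_reachable hx'
        simp only [hS, coe_filter, mem_univ, true_and]
        exact this.2 ha
      rw [← hScard]; exact h1
  have hbdd : BddAbove (Set.range fun C : ((tree f).induce {v}ᶜ).ConnectedComponent =>
      Nat.card C.supp) := ⟨_, by rintro _ ⟨C, rfl⟩; exact hupper C⟩
  have h0v : 0 ∉ sub (ext f) v n := by rw [zero_mem_sub]; exact hv0
  obtain ⟨h0, _, _⟩ := reachable_root hv0 0 (Nat.succ_pos n) h0v
  have : Nonempty ((tree f).induce {v}ᶜ).ConnectedComponent :=
    ⟨((tree f).induce {v}ᶜ).connectedComponentMk ⟨_, h0⟩⟩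
  apply le_antisymm
  · exact ciSup_le hupper
  · refine le_trans ?_ (le_ciSup hbdd (((tree f).induce {v}ᶜ).connectedComponentMk ⟨_, h0⟩))
    rw [← hScard]
    have : Set.InjOn (fun x : ({v}ᶜ : Set (Fin (n + 1))) => (x : Fin (n + 1)))
        (((tree f).induce {v}ᶜ).connectedComponentMk
          ⟨⟨0, Nat.succ_pos n⟩, h0⟩).supp := by
      intro x _ y _ h
      exact Subtype.ext h
    rw [Nat.card_coe_set_eq, ← Set.InjOn.ncard_image this, ← Set.ncard_coe_finset]
    apply Set.ncard_le_ncard _ (Set.toFinite _)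
    intro w hw
    simp only [hS, coe_filter, mem_univ, true_and] at hw
    obtain ⟨h1, h0', h2⟩ := reachable_root hv0 w w.2 hw
    refine ⟨⟨w, h1⟩, ?_, rfl⟩
    rw [SimpleGraph.ConnectedComponent.mem_supp_iff, SimpleGraph.ConnectedComponent.eq]
    exact h2

end Q287.UA
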