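import Pool.Agent.Q287.UA.Count

set_option autoImplicit false

/-!
# Uniform attachment trees: limits as `n → ∞` for a threshold `κ ∼ ρ n`
-/

open Finset Filter Topology

namespace Q287.UA

/-- The threshold. -/
noncomputable def kap (ρ : ℝ) (n : ℕ) : ℕ := ⌊ρ * n⌋₊

theorem kap_le {ρ : ℝ} (hρ : 0 < ρ) (hρ2 : ρ < 1 / 2) (n : ℕ) : 2 * kap ρ n < n + 1 := by
  have h1 : (kap ρ n : ℝ) ≤ ρ * n := Nat.floor_le (by positivity)
  have h2 : (2 * kap ρ n : ℝ) < n + 1 := by
    have : (0 : ℝ) ≤ n := Nat.cast_nonneg n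
    nlinarith
  exact_mod_cast h2

theorem tendsto_kap_div {ρ : ℝ} (hρ : 0 < ρ) :
    Tendsto (fun n : ℕ => (kap ρ n : ℝ) / n) atTop (𝓝 ρ) :=
  (tendsto_nat_floor_mul_div_atTop hρ.le).comp tendsto_natCast_atTop_atTop

theorem tendsto_const_div (a : ℝ) : Tendsto (fun n : ℕ => a / (n : ℝ)) atTop (𝓝 0) :=
  tendsto_const_nhds.div_atTop tendsto_natCast_atTop_atTop

theorem tendsto_sum_q {ρ : ℝ} (hρ : 0 < ρ) (hρ2 : ρ < 1 / 2) :
    Tendsto (fun n : ℕ => ∑ i ∈ range (n + 1), q i n (kap ρ n)) atTop (𝓝 (1 / ρ)) := by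
  have h1 : Tendsto (fun n : ℕ => (1 + 1 / (n : ℝ)) / ((kap ρ n : ℝ) / n + 1 / n)) atTop
      (𝓝 ((1 + 0) / (ρ + 0))) :=
    (tendsto_const_nhds.add (tendsto_const_div 1)).div
      ((tendsto_kap_div hρ).add (tendsto_const_div 1)) (by simpa using hρ.ne')
  rw [add_zero, add_zero] at h1
  apply h1.congr'
  filter_upwards [eventually_ge_atTop 1] with n hn
  have hκ := kap_le hρ hρ2 n
  rw [sum_q (by omega)]
  have : (0 : ℝ) < n := by exact_mod_cast hn
  field_simp

theorem tendsto_sum_mul_q {ρ : ℝ} (hρ : 0 < ρ) (hρ2 : ρ < 1 / 2) :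
    Tendsto (fun n : ℕ => ∑ i ∈ range (n + 1), ((i : ℝ) + 1) * q i n (kap ρ n)) atTop
      (𝓝 (1 / ρ ^ 2)) := by
  have h1 : Tendsto (fun n : ℕ => ((1 + 1 / (n : ℝ)) * (1 + 2 / (n : ℝ))) /
      (((kap ρ n : ℝ) / n + 1 / n) * ((kap ρ n : ℝ) / n + 2 / n))) atTop
      (𝓝 (((1 + 0) * (1 + 0)) / ((ρ + 0) * (ρ + 0)))) :=
    ((tendsto_const_nhds.add (tendsto_const_div 1)).mul
      (tendsto_const_nhds.add (tendsto_const_div 2))).div
      (((tendsto_kap_div hρ).add (tendsto_const_div 1)).mul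
        ((tendsto_kap_div hρ).add (tendsto_const_div 2)))
      (by simpa using hρ.ne')
  rw [add_zero, add_zero, mul_one, ← sq] at h1
  apply h1.congr'
  filter_upwards [eventually_ge_atTop 1] with n hn
  have hκ := kap_le hρ hρ2 n
  rw [sum_mul_q (by omega)]
  have : (0 : ℝ) < n := by exact_mod_cast hn
  field_simp

theorem tendsto_q {ρ : ℝ} (hρ : 0 < ρ) (hρ2 : ρ < 1 / 2) (i : ℕ) :
    Tendsto (fun n : ℕ => q i n (kap ρ n)) atTop (𝓝 ((1 - ρ) ^ i)) := by
  have h1 : Tendsto (fun n : ℕ => ((n - kap ρ n).descFactorial i : ℝ) / n.descFactorial i) atTop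
      (𝓝 ((1 - ρ) ^ i)) := by
    induction i with
    | zero => simp
    | succ i ih =>
      have h2 : Tendsto (fun n : ℕ => (1 - (kap ρ n : ℝ) / n - i / n) / (1 - i / (n : ℝ))) atTop
          (𝓝 ((1 - ρ - 0) / (1 - 0))) :=
        ((tendsto_const_nhds.sub (tendsto_kap_div hρ)).sub (tendsto_const_div i)).div
          (tendsto_const_nhds.sub (tendsto_const_div i)) (by simp)
      rw [sub_zero, sub_zero, div_one] at h2
      have h3 := h2.mul ih
      rw [← pow_succ'] at h3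
      apply h3.congr'
      filter_upwards [eventually_ge_atTop (2 * i + 2)] with n hn
      have hκ := kap_le hρ hρ2 n
      rw [Nat.descFactorial_succ, Nat.descFactorial_succ]
      have hn0 : (0 : ℝ) < n := by
        have : 0 < n := by omega
        exact_mod_cast this
      have e1 : ((n - kap ρ n - i : ℕ) : ℝ) = n - kap ρ n - i := by
        rw [Nat.cast_sub (by omega), Nat.cast_sub (by omega)]
      have e2 : ((n - i : ℕ) : ℝ) = n - i := by rw [Nat.cast_sub (by omega)]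
      push_cast
      rw [e1, e2, mul_div_mul_comm]
      congr 1
      have h4 : (0 : ℝ) < n - i := by
        rw [← e2]
        have : 0 < n - i := by omega
        exact_mod_cast this
      have h5 : (1 : ℝ) - i / n = (n - i) / n := by field_simp
      rw [h5]
      field_simp
  apply h1.congr'
  filter_upwards [eventually_ge_atTop i] with n hn
  have hκ := kap_le hρ hρ2 n
  rw [q_eq hn (by omega)]

theorem tendsto_sum_q_range {ρ : ℝ} (hρ : 0 < ρ) (hρ2 : ρ < 1 / 2) (K : ℕ) :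
    Tendsto (fun n : ℕ => ∑ i ∈ range K, q i n (kap ρ n)) atTop
      (𝓝 ((1 - (1 - ρ) ^ K) / ρ)) := by
  have h1 := tendsto_finsetSum (range K) fun i _ => tendsto_q hρ hρ2 i
  have h2 : ∑ i ∈ range K, (1 - ρ) ^ i = (1 - (1 - ρ) ^ K) / ρ := by
    rw [geom_sum_eq (by linarith)]
    rw [← neg_div_neg_eq]
    congr 1 <;> ring
  rw [h2] at h1
  exact h1

/-- The limit function. -/
noncomputable def g (y : ℝ) : ℝ := y * (1 - Real.exp (-(1 / y)))

theorem tendsto_g (y : ℝ) :
    Tendsto (fun K : ℕ => (1 - (1 - (1 / (y * K))) ^ K) * y) atTop (𝓝 (g y)) := by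
  have h1 := Real.tendsto_one_add_div_pow_exp (-(1 / y))
  have h2 : Tendsto (fun K : ℕ => (1 - (1 + -(1 / y) / K) ^ K) * y) atTop (𝓝 (g y)) := by
    have := (tendsto_const_nhds (x := (1 : ℝ))).sub h1
    have h3 := this.mul_const y
    have h4 : g y = (1 - Real.exp (-(1 / y))) * y := by unfold g; ring
    rw [h4]; exact h3
  apply h2.congr
  intro K
  congr 3
  rw [neg_div, div_div, ← sub_eq_add_neg]

theorem continuousAt_g {y : ℝ} (hy : 0 < y) : ContinuousAt g y := by
  unfold g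
  have : ContinuousAt (fun y : ℝ => 1 / y) y := by
    apply ContinuousAt.div continuousAt_const continuousAt_id hy.ne'
  exact continuousAt_id.mul (continuousAt_const.sub (this.neg.rexp))

end Q287.UA
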